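import Mathlib
import Pool.Agent.H279R3.Final5

/-!
# MP_57dfd7_co : planar quasi-transitive subgraphs of unbounded treewidth

Q1 has a negative answer. There is a connected, locally finite, quasi-transitive graph `G` of
unbounded treewidth (the cubic lamplighter graph) such that every subgraph of `G` that is planar
and quasi-transitive has bounded treewidth.

Planarity of `H` is expressed by `PlanarGraph H`: all finite subgraphs of `H` have crossing-free
straight-line drawings in the plane, or all of them satisfy Mac Lane's criterion, or all of them
satisfy Whitney's criterion.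
-/

namespace Pool.Agent.Results.MP_57dfd7_co.FullAnswer

open SimpleGraph H279R3

theorem result :
    ∃ (V : Type) (G : SimpleGraph V),
      Countable V ∧ G.Connected ∧ (∀ v, (G.neighborSet v).Finite) ∧ QuasiTransitive G ∧
      (∀ k, ¬ HasTreeDecomp G k) ∧
      ∀ H : G.Subgraph, PlanarGraph H.coe → QuasiTransitive H.coe →
        ∃ k, HasTreeDecomp H.coe k := by
  refine ⟨Finset ℤ × ℤ, cubicLamp, inferInstance, cubicLamp_connected, fun v => (m1.1 v).1,
    m1.2.1, m1.2.2.1, ?_⟩
  intro H hpl hqt
  exact bounded_of_hom H.hom H.hom_injective hpl.finitelyPlanar hqt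

end Pool.Agent.Results.MP_57dfd7_co.FullAnswer
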