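import Mathlib
import Pool.Agent.H279R3.Slab

/-!
# MP_57dfd7_co : planar quasi-transitive subgraphs of unbounded treewidth

There is a locally finite, vertex-transitive graph `G` of unbounded treewidth (the
lamplighter graph) such that every subgraph of `G` whose cycle space is generated by cycles of
bounded length has bounded treewidth.
-/

namespace Pool.Agent.Results.MP_57dfd7_co.LamplighterBoundedCycles

open SimpleGraph H279R3

theorem result :
    ∃ (V : Type) (G : SimpleGraph V),
      (∀ v, (G.neighborSet v).Finite) ∧
      (∀ u v : V, ∃ φ : G ≃g G, φ u = v) ∧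
      (∀ k, ¬ HasTreeDecomp G k) ∧
      ∀ H : G.Subgraph, (∃ r, CycleSpaceGeneratedBelow H.coe r) → ∃ k, HasTreeDecomp H.coe k := by
  refine ⟨Finset ℤ × ℤ, lampGraph, lampGraph_locallyFinite, lampGraph_transitive,
    lampGraph_unbounded, ?_⟩
  rintro H ⟨r, hr⟩
  exact ⟨_, hasTreeDecomp_of_generated H.hom H.hom_injective hr⟩

end Pool.Agent.Results.MP_57dfd7_co.LamplighterBoundedCycles
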